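import Mathlib

/-! Primes in a quadratic extension of number fields. -/

set_option autoImplicit false

open NumberField IsDedekindDomain

namespace Pool.Agent.T2H30.SU3

variable {F E : Type} [Field F] [NumberField F] [Field E] [NumberField E] [Algebra F E]

variable (F) in
/-- the place of `F` below `w` -/
noncomputable abbrev dn (w : HeightOneSpectrum (𝓞 E)) : HeightOneSpectrum (𝓞 F) := w.under (𝓞 F)

theorem lies (w : HeightOneSpectrum (𝓞 E)) : w.asIdeal.LiesOver (dn F w).asIdeal := ⟨rfl⟩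

theorem dn_eq_iff (w : HeightOneSpectrum (𝓞 E)) (v : HeightOneSpectrum (𝓞 F)) :
    dn F w = v ↔ w.asIdeal.LiesOver v.asIdeal := by
  constructor
  · rintro rfl
    exact lies w
  · intro h
    exact HeightOneSpectrum.ext h.over.symm

variable (F) in
/-- relative residue degree -/
noncomputable def fr (w : HeightOneSpectrum (𝓞 E)) : ℕ := w.asIdeal.inertiaDeg (𝓞 F)

variable (F) in
/-- relative ramification index -/
noncomputable def er (w : HeightOneSpectrum (𝓞 E)) : ℕ := w.asIdeal.ramificationIdx (𝓞 F)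

theorem fr_pos (w : HeightOneSpectrum (𝓞 E)) : 0 < fr F w := by
  have := w.isPrime
  exact Ideal.inertiaDeg_pos _ _

theorem er_pos (w : HeightOneSpectrum (𝓞 E)) : 0 < er F w := by
  have := w.isPrime
  exact Ideal.ramificationIdx_pos _ _

theorem norm_rel (w : HeightOneSpectrum (𝓞 E)) :
    Ideal.absNorm w.asIdeal = Ideal.absNorm (dn F w).asIdeal ^ fr F w := by
  have := lies (F := F) w
  have := w.isPrime
  exact (Ideal.absNorm_pow_inertiaDeg (dn F w).asIdeal w.asIdeal).symm

/-- the fibre over `v` -/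
noncomputable def eqv (v : HeightOneSpectrum (𝓞 F)) :
    {w : HeightOneSpectrum (𝓞 E) // dn F w = v} ≃ v.asIdeal.primesOver (𝓞 E) where
  toFun w := ⟨w.1.asIdeal, w.1.isPrime, (dn_eq_iff w.1 v).1 w.2⟩
  invFun q := ⟨⟨q.1, q.2.1, Ideal.ne_bot_of_mem_primesOver v.ne_bot q.2⟩,
    (dn_eq_iff _ v).2 q.2.2⟩
  left_inv _ := rfl
  right_inv _ := rfl

theorem fib_finite (v : HeightOneSpectrum (𝓞 F)) : {w : HeightOneSpectrum (𝓞 E) | dn F w = v}.Finite := by
  have : v.asIdeal.IsMaximal := v.isMaximal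
  have h := Finite.of_equiv _ (eqv (E := E) v).symm
  exact Set.finite_coe_iff.1 h

variable (E) in
/-- the places above `v` -/
noncomputable def Fib (v : HeightOneSpectrum (𝓞 F)) : Finset (HeightOneSpectrum (𝓞 E)) := (fib_finite v).toFinset

theorem mem_Fib {v : HeightOneSpectrum (𝓞 F)} {w : HeightOneSpectrum (𝓞 E)} : w ∈ Fib E v ↔ dn F w = v := by
  unfold Fib
  rw [Set.Finite.mem_toFinset]
  rfl

theorem sum_ef (v : HeightOneSpectrum (𝓞 F)) : ∑ w ∈ Fib E v, er F w * fr F w = Module.finrank F E := by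
  classical
  have : v.asIdeal.IsMaximal := v.isMaximal
  rw [IsFractionRing.finrank_eq (𝓞 F) F (𝓞 E) E,
    ← Ideal.sum_ramification_inertia_eq_finrank v.asIdeal (𝓞 E)]
  have h1 : ∑ w ∈ Fib E v, er F w * fr F w =
      ∑ w : {w : HeightOneSpectrum (𝓞 E) // w ∈ Fib E v}, er F w.1 * fr F w.1 := by
    rw [← Finset.sum_coe_sort]
  rw [h1]
  refine Fintype.sum_equiv ((Equiv.subtypeEquivRight fun w => mem_Fib).trans (eqv v)) _ _ fun w => rfl

section
attribute [local instance] FractionRing.liftAlgebra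

theorem ram_finite : {w : HeightOneSpectrum (𝓞 E) | er F w ≠ 1}.Finite := by
  have h0 : differentIdeal (𝓞 F) (𝓞 E) ≠ ⊥ := differentIdeal_ne_bot
  refine (Ideal.finite_factors (I := differentIdeal (𝓞 F) (𝓞 E)) h0).subset fun w hw => ?_
  have hw' : er F w ≠ 1 := hw
  have hp := er_pos (F := F) w
  have := lies (F := F) w
  have := w.isPrime
  have : (dn F w).asIdeal.IsMaximal := (dn F w).isMaximal
  have h1 : Ideal.map (algebraMap (𝓞 F) (𝓞 E)) (dn F w).asIdeal ≤ w.asIdeal ^ 2 := by
    refine Ideal.le_pow_of_le_ramificationIdx' ?_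
    rw [Ideal.ramificationIdx'_eq_ramificationIdx _ _ (dn F w).ne_bot]
    change 2 ≤ er F w
    omega
  have h2 := pow_sub_one_dvd_differentIdeal (𝓞 F) w.asIdeal 2 (dn F w).ne_bot (Ideal.dvd_iff_le.2 h1)
  simpa using h2

end

/-- the number of `w` above `v` of relative degree `j` -/
noncomputable def Wj (E : Type) [Field E] [NumberField E] [Algebra F E] (j : ℕ) (v : HeightOneSpectrum (𝓞 F)) : ℕ :=
  ((Fib E v).filter fun w => fr F w = j).card

theorem fr_cases (h : Module.finrank F E = 2) (w : HeightOneSpectrum (𝓞 E)) : fr F w = 1 ∨ fr F w = 2 := by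
  have h1 := sum_ef (E := E) (dn F w)
  rw [h] at h1
  have h2 : er F w * fr F w ≤ ∑ w ∈ Fib E (dn F w), er F w * fr F w :=
    Finset.single_le_sum (f := fun w => er F w * fr F w) (fun _ _ => Nat.zero_le _) (mem_Fib.2 rfl)
  rw [h1] at h2
  have h3 := er_pos (F := F) w
  have h4 := fr_pos (F := F) w
  have : fr F w ≤ 2 := by nlinarith
  omega

theorem W_le (h : Module.finrank F E = 2) (v : HeightOneSpectrum (𝓞 F)) :
    Wj E 1 v + 2 * Wj E 2 v ≤ 2 ∧ ((∀ w : HeightOneSpectrum (𝓞 E), dn F w = v → er F w = 1) →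
      Wj E 1 v + 2 * Wj E 2 v = 2) := by
  classical
  have h1 := sum_ef (E := E) v
  rw [h] at h1
  have h2 : Wj E 1 v + 2 * Wj E 2 v = ∑ w ∈ Fib E v, fr F w := by
    unfold Wj
    rw [Finset.card_filter, Finset.card_filter, Finset.mul_sum, ← Finset.sum_add_distrib]
    refine Finset.sum_congr rfl fun w _ => ?_
    rcases fr_cases h w with h3 | h3 <;> simp [h3]
  rw [h2]
  refine ⟨?_, fun h3 => ?_⟩
  · rw [← h1]
    refine Finset.sum_le_sum fun w _ => ?_
    have := er_pos (F := F) w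
    nlinarith
  · rw [← h1]
    refine Finset.sum_congr rfl fun w hw => ?_
    rw [h3 w (mem_Fib.1 hw), one_mul]

end Pool.Agent.T2H30.SU3
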