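import Mathlib
import Pool.Agent.H484R2.Pit

/-! The prime ideal theorem for the sums `∑_{N v ≤ n} log N v`. -/

set_option autoImplicit false

open NumberField IsDedekindDomain Pool.Agent.H921R2.TatePole H332.PIT Filter Topology

namespace Pool.Agent.T2H30.SU3

section
variable {K : Type} [Field K] [NumberField K]

theorem card_prLE (n : ℕ) : (prLE K n).card ≤ (n + 1) * Module.finrank ℚ K := by
  classical
  have h := Finset.card_le_mul_card_image_of_maps_to (s := prLE K n) (t := Finset.range (n + 1))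
    (f := fun v => ((below v : Nat.Primes) : ℕ)) (fun v hv => by
      rw [mem_prLE] at hv
      rw [Finset.mem_range]
      have := below_le_nm v
      omega) (Module.finrank ℚ K) (fun p _ => by
      by_cases hp : p.Prime
      · refine card_above ⟨p, hp⟩ _ fun v hv => ?_
        exact Subtype.ext (Finset.mem_filter.1 hv).2
      · have : (prLE K n).filter (fun v => ((below v : Nat.Primes) : ℕ) = p) = ∅ := by
          rw [Finset.filter_eq_empty_iff]
          intro v _ hv
          exact hp (hv ▸ (below v).2)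
        rw [this]
        exact Nat.zero_le _)
  rw [Finset.card_range] at h
  rw [mul_comm]
  exact h

variable (K) in
/-- `∑_{N v ≤ n} log N v` -/
noncomputable def thK (n : ℕ) : ℝ := ∑ v ∈ prLE K n, Real.log (nm v)

theorem thK_nonneg (n : ℕ) : 0 ≤ thK K n := Finset.sum_nonneg fun v _ => log_nm_nonneg v

theorem thK_le (n : ℕ) : thK K n ≤ ((n : ℝ) + 1) * Module.finrank ℚ K * Real.log n := by
  unfold thK
  calc ∑ v ∈ prLE K n, Real.log (nm v) ≤ ∑ v ∈ prLE K n, Real.log n := by
        refine Finset.sum_le_sum fun v hv => ?_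
        rw [mem_prLE] at hv
        have := two_le_nm v
        exact Real.log_le_log (by exact_mod_cast (by omega : 0 < nm v)) (by exact_mod_cast hv)
    _ = (prLE K n).card * Real.log n := by rw [Finset.sum_const, nsmul_eq_mul]
    _ ≤ _ := by
        refine mul_le_mul_of_nonneg_right ?_ (Real.log_natCast_nonneg n)
        exact_mod_cast card_prLE n

theorem sqrt_log_tendsto : Tendsto (fun n : ℕ => ((Nat.sqrt n : ℝ) + 1) * Real.log n / n) atTop (𝓝 0) := by
  have h1 : Tendsto (fun x : ℝ => Real.log x / x ^ (1 / 2 : ℝ)) atTop (𝓝 0) :=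
    (isLittleO_log_rpow_atTop (by norm_num : (0 : ℝ) < 1 / 2)).tendsto_div_nhds_zero
  have h2 := (h1.comp (tendsto_natCast_atTop_atTop (R := ℝ))).const_mul 2
  rw [mul_zero] at h2
  refine squeeze_zero' ?_ ?_ h2
  · filter_upwards with n
    exact div_nonneg (mul_nonneg (by positivity) (Real.log_natCast_nonneg n)) (Nat.cast_nonneg n)
  · filter_upwards [eventually_ge_atTop 1] with n hn
    have hn0 : (0 : ℝ) < n := by exact_mod_cast hn
    have hn1 : (1 : ℝ) ≤ n := by exact_mod_cast hn
    simp only [Function.comp]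
    have h3 : (Nat.sqrt n : ℝ) ≤ (n : ℝ) ^ (1 / 2 : ℝ) := by
      rw [← Real.sqrt_eq_rpow]
      exact Real.nat_sqrt_le_real_sqrt
    have h4 : (1 : ℝ) ≤ (n : ℝ) ^ (1 / 2 : ℝ) := Real.one_le_rpow hn1 (by norm_num)
    have h5 : (n : ℝ) ^ (1 / 2 : ℝ) * (n : ℝ) ^ (1 / 2 : ℝ) = n := by
      rw [← Real.rpow_add hn0]
      norm_num
    have h6 := Real.log_natCast_nonneg n
    have h7 : 0 < (n : ℝ) ^ (1 / 2 : ℝ) := by positivity
    rw [div_le_iff₀ hn0]
    calc ((Nat.sqrt n : ℝ) + 1) * Real.log n ≤ (2 * (n : ℝ) ^ (1 / 2 : ℝ)) * Real.log n :=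
          mul_le_mul_of_nonneg_right (by linarith) h6
      _ = 2 * (Real.log n / (n : ℝ) ^ (1 / 2 : ℝ)) * ((n : ℝ) ^ (1 / 2 : ℝ) * (n : ℝ) ^ (1 / 2 : ℝ)) := by
          field_simp
      _ = _ := by rw [h5]

theorem sum_LamK_bounds (n : ℕ) : 0 ≤ ∑ k ∈ Finset.Icc 1 n, LamK K k - thK K n ∧
    ∑ k ∈ Finset.Icc 1 n, LamK K k - thK K n ≤
      Module.finrank ℚ K * (((Nat.sqrt n : ℝ) + 1) * Real.log n) := by
  classical
  have h1 : ∑ k ∈ Finset.Icc 1 n, LamK K k = ∑ v ∈ prLE K n, ∑ k ∈ Finset.Icc 1 n,
      if nm v ^ k ≤ n then Real.log (nm v) else 0 := by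
    have e1 : ∀ m ∈ Finset.Icc 1 n, LamK K m = ∑ v ∈ prLE K n, ∑ k ∈ Finset.Icc 1 n,
        if nm v ^ k = m then Real.log (nm v) else 0 := fun m hm => LamK_eq (Finset.mem_Icc.1 hm).2
    rw [Finset.sum_congr rfl e1, Finset.sum_comm]
    refine Finset.sum_congr rfl fun v _ => ?_
    rw [Finset.sum_comm]
    refine Finset.sum_congr rfl fun k _ => ?_
    rw [Finset.sum_ite_eq]
    have h2 : 1 ≤ nm v ^ k := Nat.one_le_pow _ _ (by have := two_le_nm v; omega)
    simp only [Finset.mem_Icc, h2, true_and]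
  have h2 : ∑ k ∈ Finset.Icc 1 n, LamK K k - thK K n = ∑ v ∈ prLE K n, ∑ k ∈ (Finset.Icc 1 n).filter (fun k => 2 ≤ k),
      if nm v ^ k ≤ n then Real.log (nm v) else 0 := by
    rw [h1]
    unfold thK
    rw [← Finset.sum_sub_distrib]
    refine Finset.sum_congr rfl fun v hv => ?_
    rw [mem_prLE] at hv
    have hn : 1 ≤ n := by have := two_le_nm v; omega
    have e1 : Finset.Icc 1 n = insert 1 ((Finset.Icc 1 n).filter fun k => 2 ≤ k) := by
      ext k
      simp only [Finset.mem_insert, Finset.mem_filter, Finset.mem_Icc]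
      omega
    have e2 : ∑ k ∈ Finset.Icc 1 n, (if nm v ^ k ≤ n then Real.log (nm v) else 0) =
        Real.log (nm v) + ∑ k ∈ (Finset.Icc 1 n).filter (fun k => 2 ≤ k),
          (if nm v ^ k ≤ n then Real.log (nm v) else 0) := by
      conv_lhs => rw [e1]
      rw [Finset.sum_insert (by simp), pow_one, if_pos hv]
    rw [e2]
    ring
  rw [h2]
  refine ⟨Finset.sum_nonneg fun v _ => Finset.sum_nonneg fun k _ => ?_, ?_⟩
  · split_ifs
    · exact log_nm_nonneg v
    · exact le_rfl
  · have h3 : ∀ v ∈ prLE K n, ∑ k ∈ (Finset.Icc 1 n).filter (fun k => 2 ≤ k),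
        (if nm v ^ k ≤ n then Real.log (nm v) else 0) ≤ if nm v ≤ Nat.sqrt n then Real.log n else 0 := by
      intro v hv
      have hv2 := two_le_nm v
      have hl := log_nm_nonneg v
      split_ifs with hs
      · -- at most `log n / log nm v` terms
        rw [← Finset.sum_filter, Finset.sum_const, nsmul_eq_mul]
        have hn : 1 ≤ n := by rw [mem_prLE] at hv; omega
        have hn0 : n ≠ 0 := by omega
        have hc : (((Finset.Icc 1 n).filter (fun k => 2 ≤ k)).filter (fun k => nm v ^ k ≤ n)).card ≤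
            Nat.log (nm v) n := by
          calc _ ≤ (Finset.Icc 1 (Nat.log (nm v) n)).card := by
                refine Finset.card_le_card fun k hk => ?_
                rw [Finset.mem_filter, Finset.mem_filter, Finset.mem_Icc] at hk
                rw [Finset.mem_Icc]
                exact ⟨hk.1.1.1, Nat.le_log_of_pow_le (by omega) hk.2⟩
            _ = _ := by simp
        have hpow : nm v ^ Nat.log (nm v) n ≤ n := Nat.pow_log_le_self _ hn0
        calc _ ≤ (Nat.log (nm v) n : ℝ) * Real.log (nm v) :=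
              mul_le_mul_of_nonneg_right (by exact_mod_cast hc) hl
          _ = Real.log ((nm v : ℝ) ^ Nat.log (nm v) n) := by rw [Real.log_pow]
          _ ≤ Real.log n := by
              refine Real.log_le_log (by positivity) ?_
              exact_mod_cast hpow
      · refine (Finset.sum_eq_zero fun k hk => ?_).le
        rw [if_neg]
        intro h4
        rw [Finset.mem_filter] at hk
        apply hs
        rw [Nat.le_sqrt']
        exact (Nat.pow_le_pow_right (by omega) hk.2).trans h4
    refine (Finset.sum_le_sum h3).trans ?_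
    rw [← Finset.sum_filter, Finset.sum_const, nsmul_eq_mul]
    have h4 : ((prLE K n).filter fun v => nm v ≤ Nat.sqrt n) ⊆ prLE K (Nat.sqrt n) := by
      intro v hv
      rw [mem_prLE]
      exact (Finset.mem_filter.1 hv).2
    have h5 : ((((prLE K n).filter fun v => nm v ≤ Nat.sqrt n).card : ℕ) : ℝ) ≤
        ((Nat.sqrt n : ℝ) + 1) * Module.finrank ℚ K := by
      exact_mod_cast (Finset.card_le_card h4).trans (card_prLE _)
    calc _ ≤ (((Nat.sqrt n : ℝ) + 1) * Module.finrank ℚ K) * Real.log n :=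
          mul_le_mul_of_nonneg_right h5 (Real.log_natCast_nonneg n)
      _ = _ := by ring

/-- **The prime ideal theorem.** -/
theorem thK_tendsto : Tendsto (fun n : ℕ => thK K n / n) atTop (𝓝 1) := by
  have h1 : Tendsto (fun N : ℕ => (∑ k ∈ Finset.Icc 1 N, LamK K k) / (N : ℝ)) atTop (𝓝 1) := by
    have := (sum_LamK (K := K) (Pool.Agent.H484R2.continuation K)).comp (tendsto_natCast_atTop_atTop (R := ℝ))
    refine this.congr fun N => ?_
    simp only [Function.comp, Nat.floor_natCast]
  have h2 := (sqrt_log_tendsto).const_mul (Module.finrank ℚ K : ℝ)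
  rw [mul_zero] at h2
  have h3 : Tendsto (fun N : ℕ => (∑ k ∈ Finset.Icc 1 N, LamK K k) / (N : ℝ) - thK K N / N) atTop (𝓝 0) := by
    refine squeeze_zero' ?_ ?_ h2
    · filter_upwards with N
      rw [← sub_div]
      exact div_nonneg (sum_LamK_bounds N).1 (Nat.cast_nonneg _)
    · filter_upwards with N
      rw [← sub_div, ← mul_div_assoc]
      exact div_le_div_of_nonneg_right (sum_LamK_bounds N).2 (Nat.cast_nonneg _)
  have h4 := h1.sub h3
  rw [sub_zero] at h4
  exact h4.congr fun N => by ring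

end

end Pool.Agent.T2H30.SU3
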