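import Mathlib
import Pool.Agent.T2H30.SU3.Theta
import Pool.Agent.T2H30.SU3.Rel

/-! The places inert in a quadratic extension: `∑_{N w ≤ n², w inert} log N w ∼ n`. -/

set_option autoImplicit false

open NumberField IsDedekindDomain Pool.Agent.H921R2.TatePole H332.PIT Filter Topology

namespace Pool.Agent.T2H30.SU3

variable {F E : Type} [Field F] [NumberField F] [Field E] [NumberField E] [Algebra F E]

theorem nm_rel (w : HeightOneSpectrum (𝓞 E)) : nm w = nm (dn F w) ^ fr F w := norm_rel w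

open scoped Classical in
/-- the places of relative degree `j` above places of norm `≤ n` -/
noncomputable def TJ (F E : Type) [Field F] [NumberField F] [Field E] [NumberField E] [Algebra F E] (j n : ℕ) :
    Finset (HeightOneSpectrum (𝓞 E)) :=
  (prLE E (n ^ 2)).filter fun w => fr F w = j ∧ nm (dn F w) ≤ n

theorem mem_TJ (h : Module.finrank F E = 2) {j n : ℕ} (hn : 1 ≤ n) {w : HeightOneSpectrum (𝓞 E)} :
    w ∈ TJ F E j n ↔ fr F w = j ∧ nm (dn F w) ≤ n := by
  classical
  unfold TJ
  rw [Finset.mem_filter, mem_prLE]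
  refine ⟨fun h1 => h1.2, fun h1 => ⟨?_, h1⟩⟩
  have h2 := two_le_nm (dn F w)
  rw [nm_rel (F := F) w]
  rcases fr_cases (F := F) h w with h3 | h3
  · rw [h3, pow_one]
    nlinarith [h1.2]
  · rw [h3]
    exact Nat.pow_le_pow_left h1.2 2

theorem sum_Wj (h : Module.finrank F E = 2) {j n : ℕ} (hn : 1 ≤ n) (f : HeightOneSpectrum (𝓞 F) → ℝ) :
    ∑ v ∈ prLE F n, (Wj E j v : ℝ) * f v = ∑ w ∈ TJ F E j n, f (dn F w) := by
  classical
  rw [← Finset.sum_fiberwise_of_maps_to (s := TJ F E j n) (t := prLE F n) (g := fun w => dn F w)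
    (fun w hw => by rw [mem_prLE]; exact ((mem_TJ h hn).1 hw).2)]
  refine Finset.sum_congr rfl fun v hv => ?_
  rw [mem_prLE] at hv
  have e1 : (TJ F E j n).filter (fun w => dn F w = v) = (Fib E v).filter fun w => fr F w = j := by
    ext w
    rw [Finset.mem_filter, Finset.mem_filter, mem_TJ h hn, mem_Fib]
    constructor
    · rintro ⟨⟨h1, h2⟩, h3⟩
      exact ⟨h3, h1⟩
    · rintro ⟨h1, h2⟩
      exact ⟨⟨h2, by rw [h1]; exact hv⟩, h1⟩
  rw [e1]
  have e2 : ∑ w ∈ (Fib E v).filter (fun w => fr F w = j), f (dn F w) =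
      ∑ w ∈ (Fib E v).filter (fun w => fr F w = j), f v := by
    refine Finset.sum_congr rfl fun w hw => ?_
    rw [mem_Fib.1 (Finset.mem_filter.1 hw).1]
  rw [e2, Finset.sum_const, nsmul_eq_mul]
  rfl

variable (F E) in
/-- `∑ log N w`, over the inert places with `N w ≤ n²` -/
noncomputable def In (n : ℕ) : ℝ := ∑ w ∈ TJ F E 2 n, Real.log (nm w)

theorem log_nm_rel (w : HeightOneSpectrum (𝓞 E)) :
    Real.log (nm w) = fr F w * Real.log (nm (dn F w)) := by
  rw [nm_rel (F := F) w]
  push_cast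
  rw [Real.log_pow]

theorem In_eq (h : Module.finrank F E = 2) {n : ℕ} (hn : 1 ≤ n) :
    ∑ v ∈ prLE F n, (2 * (Wj E 2 v : ℝ)) * Real.log (nm v) = In F E n := by
  have h1 := sum_Wj (E := E) h (j := 2) hn (fun v => 2 * Real.log (nm v))
  unfold In
  have h2 : ∑ w ∈ TJ F E 2 n, Real.log (nm w) = ∑ w ∈ TJ F E 2 n, 2 * Real.log (nm (dn F w)) := by
    refine Finset.sum_congr rfl fun w hw => ?_
    rw [log_nm_rel (F := F) w, ((mem_TJ h hn).1 hw).1]
    norm_num
  rw [h2, ← h1]
  exact Finset.sum_congr rfl fun v _ => by ring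

theorem In_split (h : Module.finrank F E = 2) {n : ℕ} (hn : 1 ≤ n) :
    ∑ v ∈ prLE F n, (Wj E 1 v : ℝ) * Real.log (nm v) =
      thK E n - ∑ w ∈ (prLE E n).filter (fun w => fr F w = 2), Real.log (nm w) := by
  classical
  rw [sum_Wj (E := E) h (j := 1) hn (fun v => Real.log (nm v))]
  have e1 : TJ F E 1 n = (prLE E n).filter fun w => fr F w = 1 := by
    ext w
    rw [mem_TJ h hn, Finset.mem_filter, mem_prLE]
    constructor
    · rintro ⟨h1, h2⟩
      refine ⟨?_, h1⟩
      rw [nm_rel (F := F) w, h1, pow_one]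
      exact h2
    · rintro ⟨h1, h2⟩
      refine ⟨h2, ?_⟩
      rw [nm_rel (F := F) w, h2, pow_one] at h1
      exact h1
  rw [e1]
  have e2 : ∑ w ∈ (prLE E n).filter (fun w => fr F w = 1), Real.log (nm (dn F w)) =
      ∑ w ∈ (prLE E n).filter (fun w => fr F w = 1), Real.log (nm w) := by
    refine Finset.sum_congr rfl fun w hw => ?_
    rw [log_nm_rel (F := F) w, (Finset.mem_filter.1 hw).2]
    norm_num
  rw [e2]
  unfold thK
  rw [← Finset.sum_filter_add_sum_filter_not (prLE E n) (fun w => fr F w = 1)]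
  have e3 : (prLE E n).filter (fun w => ¬ fr F w = 1) = (prLE E n).filter fun w => fr F w = 2 := by
    refine Finset.filter_congr fun w _ => ?_
    rcases fr_cases (F := F) h w with h3 | h3 <;> simp [h3]
  rw [e3]
  ring

theorem small_inert (h : Module.finrank F E = 2) {n : ℕ} (hn : 1 ≤ n) :
    0 ≤ ∑ w ∈ (prLE E n).filter (fun w => fr F w = 2), Real.log (nm w) ∧
    ∑ w ∈ (prLE E n).filter (fun w => fr F w = 2), Real.log (nm w) ≤
      Module.finrank ℚ F * (((Nat.sqrt n : ℝ) + 1) * Real.log n) := by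
  classical
  refine ⟨Finset.sum_nonneg fun w _ => log_nm_nonneg w, ?_⟩
  have h1 : 1 ≤ Nat.sqrt n := Nat.le_sqrt.2 (by omega)
  have h2 : (prLE E n).filter (fun w => fr F w = 2) ⊆ TJ F E 2 (Nat.sqrt n) := by
    intro w hw
    rw [Finset.mem_filter, mem_prLE] at hw
    rw [mem_TJ h h1]
    refine ⟨hw.2, ?_⟩
    rw [Nat.le_sqrt']
    have := hw.1
    rwa [nm_rel (F := F) w, hw.2] at this
  have h3 : ((TJ F E 2 (Nat.sqrt n)).card : ℝ) ≤ ((Nat.sqrt n : ℝ) + 1) * Module.finrank ℚ F := by
    have h4 := sum_Wj (E := E) h (j := 2) h1 (fun _ => (1 : ℝ))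
    rw [Finset.sum_const, nsmul_eq_mul, mul_one] at h4
    rw [← h4]
    have h5 : ∀ v ∈ prLE F (Nat.sqrt n), (Wj E 2 v : ℝ) * 1 ≤ 1 := by
      intro v _
      have := (W_le (E := E) h v).1
      have : Wj E 2 v ≤ 1 := by omega
      rw [mul_one]
      exact_mod_cast this
    refine (Finset.sum_le_sum h5).trans ?_
    rw [Finset.sum_const, nsmul_eq_mul, mul_one]
    exact_mod_cast card_prLE (Nat.sqrt n)
  calc ∑ w ∈ (prLE E n).filter (fun w => fr F w = 2), Real.log (nm w) ≤
      ∑ w ∈ (prLE E n).filter (fun w => fr F w = 2), Real.log n := by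
        refine Finset.sum_le_sum fun w hw => ?_
        rw [Finset.mem_filter, mem_prLE] at hw
        have := two_le_nm w
        exact Real.log_le_log (by exact_mod_cast (by omega : 0 < nm w)) (by exact_mod_cast hw.1)
    _ = ((prLE E n).filter (fun w => fr F w = 2)).card * Real.log n := by rw [Finset.sum_const, nsmul_eq_mul]
    _ ≤ (((Nat.sqrt n : ℝ) + 1) * Module.finrank ℚ F) * Real.log n := by
        refine mul_le_mul_of_nonneg_right ?_ (Real.log_natCast_nonneg n)
        refine le_trans ?_ h3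
        exact_mod_cast Finset.card_le_card h2
    _ = _ := by ring

/-- **The inert places.** -/
theorem In_tendsto (h : Module.finrank F E = 2) : Tendsto (fun n : ℕ => In F E n / n) atTop (𝓝 1) := by
  classical
  -- the finite set of places below ramified ones
  set RR : Finset (HeightOneSpectrum (𝓞 F)) := (ram_finite (F := F) (E := E)).toFinset.image fun w => dn F w with hRR
  set C : ℝ := ∑ v ∈ RR, 2 * Real.log (nm v) with hC
  have hkey : ∀ n : ℕ, 1 ≤ n → 0 ≤ 2 * thK F n - (∑ v ∈ prLE F n, (Wj E 1 v : ℝ) * Real.log (nm v) + In F E n) ∧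
      2 * thK F n - (∑ v ∈ prLE F n, (Wj E 1 v : ℝ) * Real.log (nm v) + In F E n) ≤ C := by
    intro n hn
    rw [← In_eq (E := E) h hn, ← Finset.sum_add_distrib]
    unfold thK
    rw [Finset.mul_sum, ← Finset.sum_sub_distrib]
    have h1 : ∀ v : HeightOneSpectrum (𝓞 F), 0 ≤ 2 * Real.log (nm v) -
        ((Wj E 1 v : ℝ) * Real.log (nm v) + 2 * (Wj E 2 v : ℝ) * Real.log (nm v)) ∧
        2 * Real.log (nm v) - ((Wj E 1 v : ℝ) * Real.log (nm v) + 2 * (Wj E 2 v : ℝ) * Real.log (nm v)) ≤
          if v ∈ RR then 2 * Real.log (nm v) else 0 := by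
      intro v
      have hl := log_nm_nonneg v
      have h2 : ((Wj E 1 v : ℝ) + 2 * (Wj E 2 v : ℝ)) ≤ 2 := by exact_mod_cast (W_le (E := E) h v).1
      have h0 : (0 : ℝ) ≤ (Wj E 1 v : ℝ) + 2 * (Wj E 2 v : ℝ) := by positivity
      refine ⟨by nlinarith, ?_⟩
      split_ifs with h3
      · nlinarith
      · have h4 : ((Wj E 1 v : ℝ) + 2 * (Wj E 2 v : ℝ)) = 2 := by
          have := (W_le (E := E) h v).2 fun w hw => by
            by_contra h5
            apply h3
            rw [hRR, Finset.mem_image]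
            exact ⟨w, by rw [Set.Finite.mem_toFinset]; exact h5, hw⟩
          exact_mod_cast this
        have : 2 * Real.log (nm v) - ((Wj E 1 v : ℝ) * Real.log (nm v) + 2 * (Wj E 2 v : ℝ) * Real.log (nm v)) =
            (2 - ((Wj E 1 v : ℝ) + 2 * (Wj E 2 v : ℝ))) * Real.log (nm v) := by ring
        rw [this, h4]
        simp
    refine ⟨Finset.sum_nonneg fun v _ => (h1 v).1, (Finset.sum_le_sum fun v _ => (h1 v).2).trans ?_⟩
    rw [← Finset.sum_filter, hC]
    refine Finset.sum_le_sum_of_subset_of_nonneg (fun v hv => (Finset.mem_filter.1 hv).2) fun v _ _ => ?_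
    have := log_nm_nonneg v
    positivity
  have hn0 : Tendsto (fun n : ℕ => C / n) atTop (𝓝 0) := tendsto_const_div_atTop_nhds_zero_nat C
  have hs := (sqrt_log_tendsto).const_mul (Module.finrank ℚ F : ℝ)
  rw [mul_zero] at hs
  have h3 : Tendsto (fun n : ℕ => (2 * thK F n - (∑ v ∈ prLE F n, (Wj E 1 v : ℝ) * Real.log (nm v) + In F E n)) / n)
      atTop (𝓝 0) := by
    refine squeeze_zero' ?_ ?_ hn0
    · filter_upwards [eventually_ge_atTop 1] with n hn
      exact div_nonneg (hkey n hn).1 (Nat.cast_nonneg _)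
    · filter_upwards [eventually_ge_atTop 1] with n hn
      exact div_le_div_of_nonneg_right (hkey n hn).2 (Nat.cast_nonneg _)
  have h4 : Tendsto (fun n : ℕ => (∑ w ∈ (prLE E n).filter (fun w => fr F w = 2), Real.log (nm w)) / n)
      atTop (𝓝 0) := by
    refine squeeze_zero' ?_ ?_ hs
    · filter_upwards [eventually_ge_atTop 1] with n hn
      exact div_nonneg (small_inert h hn).1 (Nat.cast_nonneg _)
    · filter_upwards [eventually_ge_atTop 1] with n hn
      rw [← mul_div_assoc]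
      exact div_le_div_of_nonneg_right (small_inert h hn).2 (Nat.cast_nonneg _)
  have h5 := (((thK_tendsto (K := F)).const_mul 2).sub (thK_tendsto (K := E))).add (h4.sub h3)
  have e : (2 * 1 - 1 + (0 - 0) : ℝ) = 1 := by norm_num
  rw [e] at h5
  refine h5.congr' ?_
  filter_upwards [eventually_ge_atTop 1] with n hn
  rw [In_split h hn]
  ring

end Pool.Agent.T2H30.SU3
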